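import Pool.Agent.Q181.FL.Gaifman

set_option autoImplicit false

namespace Pool.Agent.Results.MP_d359f0_an.PoorNotMeasure

open Pool.Agent.Q181.FL

/-- In ZFC: there is a free filter on `ℕ` which is poor but is not generated by any statistical
measure. -/
theorem result : ∃ F : Filter ℕ, IsFree F ∧ IsPoor F ∧
    ∀ μ : Set ℕ → ℝ, IsStatisticalMeasure μ → ¬ IsGeneratedBy F μ :=
  exists_poor_nonmeasure

end Pool.Agent.Results.MP_d359f0_an.PoorNotMeasure
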